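import Pool.Agent.Lib.H98P.Defs
import Pool.Agent.Lib.H98M.M0
import Pool.Agent.Lib.H30F.BP

/-!
# H70L, file Def: sparse graphs, graphs of families of vertex sets, their cost
-/

set_option autoImplicit false

namespace H70L

open Finset H98P H98M

variable {V : Type*} [Fintype V] [DecidableEq V]

/-- Every vertex set with `k ≥ 2` vertices spans at most `2 k - 3` edges of `H`. -/
def Sparse (H : Finset (Sym2 V)) : Prop :=
  ∀ X : Finset V, 2 ≤ X.card → (H ∩ X.sym2).card + 3 ≤ 2 * X.card

/-- The edges which lie in a member of the family `F`. -/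
def HG (F : Finset (Finset V)) : Finset (Sym2 V) :=
  (LW univ).filter fun e => ∃ X ∈ F, e ∈ X.sym2

/-- The cost of a family. -/
def cost (F : Finset (Finset V)) : ℕ := ∑ X ∈ F, (2 * X.card - 3)

end H70L
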