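import Pool.Agent.Lib.H70L.Def

/-!
# H70L, file Cov: a family of small cost does not cover all pairs
-/

set_option autoImplicit false

namespace H70L

open Finset H98P H98M

variable {V : Type*} [Fintype V] [DecidableEq V]

/-- A family which covers all pairs of `U` costs at least `2 |U| - 3`. -/
theorem cover_cost (F : Finset (Finset V)) (n : ℕ) : ∀ U : Finset V, U.card = n → 2 ≤ U.card →
    (∀ x ∈ U, ∀ y ∈ U, x ≠ y → ∃ X ∈ F, x ∈ X ∧ y ∈ X) →
    2 * U.card ≤ ∑ X ∈ F, (2 * (X ∩ U).card - 3) + 3 := by
  induction n with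
  | zero =>
    intro U hU h2 _
    omega
  | succ n ih =>
    intro U hU h2 h
    by_cases h3 : U.card = 2
    · obtain ⟨x, y, hxy, rfl⟩ := card_eq_two.1 h3
      obtain ⟨X, hX, hx, hy⟩ := h x (by simp) y (by simp) hxy
      have h4 : (X ∩ {x, y}).card = 2 := by
        have e : X ∩ {x, y} = {x, y} := inter_eq_right.2 (by
          intro z hz
          rw [mem_insert, mem_singleton] at hz
          rcases hz with rfl | rfl
          · exact hx
          · exact hy)
        rw [e, h3]
      have h5 : 2 * (X ∩ {x, y}).card - 3 ≤ ∑ X ∈ F, (2 * (X ∩ {x, y}).card - 3) :=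
        single_le_sum (f := fun X => 2 * (X ∩ {x, y}).card - 3) (fun _ _ => Nat.zero_le _) hX
      omega
    · obtain ⟨v, hv⟩ : U.Nonempty := card_pos.1 (by omega)
      have hc : (U.erase v).card + 1 = U.card := card_erase_add_one hv
      have h4 := ih (U.erase v) (by omega) (by omega)
        (fun x hx y hy => h x (mem_of_mem_erase hx) y (mem_of_mem_erase hy))
      -- the gain of a member
      have hg : ∀ X : Finset V, v ∈ X → (X ∩ U).card = (X ∩ U.erase v).card + 1 := by
        intro X hX
        have e : X ∩ U.erase v = (X ∩ U).erase v := by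
          ext z
          simp only [mem_inter, mem_erase]
          tauto
        rw [e, card_erase_add_one (mem_inter.2 ⟨hX, hv⟩)]
      have hle : ∀ X ∈ F, 2 * (X ∩ U.erase v).card - 3 ≤ 2 * (X ∩ U).card - 3 := by
        intro X _
        have : (X ∩ U.erase v).card ≤ (X ∩ U).card :=
          card_le_card (inter_subset_inter Subset.rfl (erase_subset v U))
        omega
      suffices h6 : ∑ X ∈ F, (2 * (X ∩ U.erase v).card - 3) + 2 ≤ ∑ X ∈ F, (2 * (X ∩ U).card - 3) by omega
      obtain ⟨y, hy⟩ : (U.erase v).Nonempty := card_pos.1 (by omega)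
      obtain ⟨y', hy'⟩ : ((U.erase v).erase y).Nonempty := card_pos.1 (by
        have := card_erase_add_one hy
        omega)
      obtain ⟨X, hX, hvX, hyX⟩ := h v hv y (mem_of_mem_erase hy) (ne_of_mem_erase hy).symm
      have hy1 : y' ∈ U.erase v := mem_of_mem_erase hy'
      obtain ⟨X', hX', hvX', hyX'⟩ := h v hv y' (mem_of_mem_erase hy1) (ne_of_mem_erase hy1).symm
      have hin : ∀ {Z : Finset V} {z : V}, z ∈ Z → z ∈ U.erase v → 1 ≤ (Z ∩ U.erase v).card :=
        fun h1 h2 => card_pos.2 ⟨_, mem_inter.2 ⟨h1, h2⟩⟩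
      by_cases hXX : X = X'
      · subst hXX
        have h7 : 2 ≤ (X ∩ U.erase v).card := by
          have e : ({y, y'} : Finset V) ⊆ X ∩ U.erase v := by
            intro z hz
            rw [mem_insert, mem_singleton] at hz
            rcases hz with rfl | rfl
            · exact mem_inter.2 ⟨hyX, hy⟩
            · exact mem_inter.2 ⟨hyX', hy1⟩
          have := card_le_card e
          rwa [card_pair (ne_of_mem_erase hy').symm] at this
        rw [← add_sum_erase F _ hX, ← add_sum_erase F (fun X => 2 * (X ∩ U).card - 3) hX]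
        have h8 := sum_le_sum fun Z (hZ : Z ∈ F.erase X) => hle Z (mem_of_mem_erase hZ)
        have h9 := hg X hvX

        omega
      · rw [← add_sum_erase F _ hX, ← add_sum_erase F (fun X => 2 * (X ∩ U).card - 3) hX,
          ← add_sum_erase (F.erase X) _ (mem_erase.2 ⟨Ne.symm hXX, hX'⟩),
          ← add_sum_erase (F.erase X) (fun X => 2 * (X ∩ U).card - 3) (mem_erase.2 ⟨Ne.symm hXX, hX'⟩)]
        have h8 := sum_le_sum fun Z (hZ : Z ∈ (F.erase X).erase X') =>
          hle Z (mem_of_mem_erase (mem_of_mem_erase hZ))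
        have h9 := hg X hvX
        have h10 := hg X' hvX'
        have h11 := hin hyX hy
        have h12 := hin hyX' hy1

        omega

/-- A family of cost at most `2 n - 4` has a disconnected pair. -/
theorem exists_disc_hyp (F : Finset (Finset V)) (h2 : 2 ≤ Fintype.card V)
    (hF : cost F + 4 ≤ 2 * Fintype.card V) : ∃ W : Finset V, Disc W (HG F) := by
  by_contra hcon
  have h1 := cover_cost F _ (univ : Finset V) rfl (by rwa [card_univ]) (fun x _ y _ hxy => by
    by_contra h3
    refine hcon ⟨{x} ∪ {y}, {x}, {y}, singleton_nonempty x, singleton_nonempty y, disjoint_singleton.2 hxy, rfl, ?_⟩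
    intro a ha b hb hab
    rw [mem_singleton] at ha hb
    subst ha
    subst hb
    obtain ⟨X, hX, hab'⟩ := (mem_filter.1 hab).2
    rw [mk_mem_sym2_iff] at hab'
    exact h3 ⟨X, hX, hab'.1, hab'.2⟩)
  have e : ∑ X ∈ F, (2 * (X ∩ univ).card - 3) = cost F := by
    unfold cost
    exact sum_congr rfl fun X _ => by rw [inter_univ]
  rw [e, card_univ] at h1
  omega

end H70L
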