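import Pool.Agent.Lib.H70L.TrMap
import Pool.Agent.Lib.H70L.Def
import Pool.Agent.Lib.H63T.Tr

/-!
# H70L, file Fun: the functor theorem with a closure
-/

set_option autoImplicit false

set_option linter.unusedSectionVars false

namespace H70L

open Finset H98P H98Z H63F H30F H98M H56V H63T

variable {V : Type*} [Fintype V] [DecidableEq V]

private theorem fn_mono {W : Finset V} {F F' : Finset (Sym2 V)} (hF : F ⊆ F') (h : Disc W F') : Disc W F := by
  obtain ⟨C, D, hC, hD, hCD, hW, h⟩ := h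
  exact ⟨C, D, hC, hD, hCD, hW, fun x hx y hy h1 => h x hx y hy (hF h1)⟩

/-- The length of a chain of closed sets. -/
private theorem fn_card {c : Finset (Finset (Sym2 V))} {cl : Finset (Sym2 V) → Finset (Sym2 V)}
    {r : Finset (Sym2 V) → ℕ} {m : Finset (Sym2 V)} {N : ℕ} (hm : m ∈ c) (hmin : ∀ x ∈ c, m ⊆ x)
    (hch : ∀ x ∈ c, ∀ y ∈ c, x ⊆ y ∨ y ⊆ x)
    (hmono : ∀ G ∈ c, ∀ G' ∈ c, G ⊆ G' → (cl G = cl G' ∨ r G < r G'))
    (hN : ∀ x ∈ c, r x ≤ N) : (c.image cl).card + r m ≤ N + 1 := by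
  classical
  have hg : ∀ y ∈ c.image cl, ∃ x ∈ c, cl x = y := fun y hy => by
    obtain ⟨x, hx, hxy⟩ := mem_image.1 hy
    exact ⟨x, hx, hxy⟩
  choose! g hg1 hg2 using hg
  have h1 : (c.image cl).card ≤ (Icc (r m) N).card := by
    have hlt : ∀ y ∈ c.image cl, y ≠ cl m → r m < r (g y) := by
      intro y hy hne
      rcases hmono m hm (g y) (hg1 y hy) (hmin _ (hg1 y hy)) with h | h
      · rw [hg2 y hy] at h
        exact absurd h.symm hne
      · exact h
    refine card_le_card_of_injOn (fun y => if y = cl m then r m else r (g y)) (fun y hy => ?_)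
      (fun y hy y' hy' hyy => ?_)
    · have hy := mem_coe.1 hy
      refine mem_coe.2 (mem_Icc.2 ?_)
      show r m ≤ (if y = cl m then r m else r (g y)) ∧ (if y = cl m then r m else r (g y)) ≤ N
      by_cases h : y = cl m
      · rw [if_pos h]
        exact ⟨le_rfl, hN m hm⟩
      · rw [if_neg h]
        exact ⟨(hlt y hy h).le, hN _ (hg1 y hy)⟩
    · have hy := mem_coe.1 hy
      have hy' := mem_coe.1 hy'
      have hyy : (if y = cl m then r m else r (g y)) = (if y' = cl m then r m else r (g y')) := hyy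
      by_cases h : y = cl m
      · by_cases h' : y' = cl m
        · rw [h, h']
        · rw [if_pos h, if_neg h'] at hyy
          have := hlt y' hy' h'
          omega
      · by_cases h' : y' = cl m
        · rw [if_neg h, if_pos h'] at hyy
          have := hlt y hy h
          omega
        · rw [if_neg h, if_neg h'] at hyy
          rcases hch _ (hg1 y hy) _ (hg1 y' hy') with h2 | h2
          · rcases hmono _ (hg1 y hy) _ (hg1 y' hy') h2 with h3 | h3
            · rw [hg2 y hy, hg2 y' hy'] at h3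
              exact h3
            · omega
          · rcases hmono _ (hg1 y' hy') _ (hg1 y hy) h2 with h3 | h3
            · rw [hg2 y hy, hg2 y' hy'] at h3
              exact h3.symm
            · omega
  rw [Nat.card_Icc] at h1
  have := hN m hm
  omega

/-- THE FUNCTOR THEOREM WITH A CLOSURE. -/
theorem functor_closure {cross : Sym2 V → Sym2 V → Prop} (hsymm : ∀ e f, cross e f → cross f e)
    (hHD : ∀ W, HD cross W) (hV : ∃ x y : V, x ≠ y)
    (cl : Finset (Sym2 V) → Finset (Sym2 V)) (r : Finset (Sym2 V) → ℕ)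
    (hcl : ∀ G, G ⊆ LW univ → G ⊆ cl G)
    (hmono : ∀ G G', G ⊆ G' → G' ⊆ LW univ → cl G ⊆ cl G' ∧ (cl G = cl G' ∨ r G < r G'))
    (hD : ∀ G, G ⊆ LW univ → ∀ k, k + r G + 4 ≤ 2 * Fintype.card V → HC (Ch fun W : Finset V => Disc W (cl G)) k) :
    ∃ G : Finset (Sym2 V), G ⊆ LW univ ∧ Plane cross G ∧ 2 * Fintype.card V ≤ r G + 3 := by
  classical
  by_contra hcon
  push Not at hcon
  obtain ⟨x, y, hxy⟩ := hV
  have hK : Acy cross (LW (univ : Finset V)) := by
    refine acy_hasCut hsymm (hHD univ) (W := univ) ⟨Subset.rfl, {x}, univ \ {x}, singleton_nonempty x,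
      ⟨y, by simp [Ne.symm hxy]⟩, disjoint_sdiff, by simp, ?_⟩
    intro a ha b hb
    refine mem_LW (mem_univ _) (mem_univ _) fun e => ?_
    subst e
    exact (mem_sdiff.1 hb).2 ha
  obtain ⟨P, hP⟩ : ∃ P : Finset (Sym2 V) → Finset V × Finset (Sym2 V) → Prop, ∀ S p, P S p ↔
      (HasCut p.1 p.2 ∧ Disc p.1 S ∧ Disjoint p.2 S) := ⟨_, fun _ _ => Iff.rfl⟩
  obtain ⟨K, hKdef⟩ : ∃ K : Finset (Sym2 V) → Prop, ∀ G, K G ↔ (G ⊆ LW univ ∧ Plane cross G) :=
    ⟨_, fun _ => Iff.rfl⟩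
  have hKd : Dn K := fun s t hst h => by
    rw [hKdef] at h ⊢
    exact ⟨hst.trans h.1, plane_sub hst h.2⟩
  have hK0 : K ∅ := (hKdef ∅).2 ⟨empty_subset _, fun e he => absurd he (notMem_empty e)⟩
  have hAK : AC K := ac_congr (fun s => (hKdef s).symm) hK
  have hPm : ∀ S S', S ⊆ S' → ∀ p, P S' p → P S p := by
    intro S S' h p hp
    rw [hP] at hp ⊢
    exact ⟨hp.1, fn_mono h hp.2.1, hp.2.2.mono_right h⟩
  have hgd : ∀ {W : Finset V} {S : Finset (Sym2 V)}, Disc W S → HasCut W (LW W \ S) ∧ Disc W S ∧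
      Disjoint (LW W \ S) S := fun h => ⟨hasCut_compl h, h, sdiff_disjoint⟩
  have hLW : ∀ {W W' : Finset V}, W ≤ W' → ∀ {S : Finset (Sym2 V)}, LW W \ S ⊆ LW W' \ S := by
    intro W W' h S
    refine sdiff_subset_sdiff (fun e he => ?_) Subset.rfl
    unfold LW at he ⊢
    rw [mem_filter] at he ⊢
    exact ⟨Finset.sym2_mono h he.1, he.2⟩
  obtain ⟨c, T, hcn, hcK, hTn, ⟨S, hSc, hTP⟩, hXi⟩ := trace_map (E := Finset (Sym2 V))
    (C := Finset V × Finset (Sym2 V)) cl
    (Ch fun G : Finset (Sym2 V) => K G ∧ G.Nonempty)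
    (Ch fun p : Finset V × Finset (Sym2 V) => HasCut p.1 p.2)
    ch_dn ch_dn (ch_empty _) (ac_sd hKd hK0 hAK)
    (fun d T => ∃ S ∈ d, Ch (P S) T)
    (fun T => Ch fun F : Finset (Sym2 V) => (∃ p ∈ T, F ⊆ p.2 ∧ Plane cross F) ∧ F.Nonempty)
    (fun d T _ _ ⟨S, _, h⟩ => ch_mono (fun p hp => ((hP S p).1 hp).1) h)
    (fun d d' hdd _ _ T ⟨S, hS, h⟩ => ⟨S, hdd hS, h⟩)
    (fun d _ ⟨S, hS⟩ => ⟨S, hS, ch_empty _⟩)
    (fun d ⟨c, hc, hcd⟩ hn => by
      subst hcd
      have hcn : c.Nonempty := image_nonempty.1 hn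
      obtain ⟨m, hm, hmin⟩ := ch_min hc hcn
      have hKm := (hKdef m).1 (hc.1 m hm).1
      refine hc_congr (K := Ch (P (cl m))) (fun T => ?_) ?_
      · constructor
        · exact fun h1 => ⟨cl m, mem_image_of_mem cl hm, h1⟩
        · rintro ⟨S, hS, h1⟩
          obtain ⟨x, hx, rfl⟩ := mem_image.1 hS
          exact ch_mono (hPm _ _ (hmono m x (hmin x hx) ((hKdef x).1 (hc.1 x hx).1).1).1) h1
      · have hcc : (c.image cl).card + r m ≤ (2 * Fintype.card V - 4) + 1 :=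
          fn_card hm hmin (fun x hx y hy => hc.2 x hx y hy)
            (fun G hG G' hG' h => (hmono G G' h ((hKdef G').1 (hc.1 G' hG').1).1).2)
            (fun x hx => by
              have h1 := (hKdef x).1 (hc.1 x hx).1
              have h2 := hcon x h1.1 h1.2
              omega)
        have hcm := hcon m hKm.1 hKm.2
        have hcp := card_pos.2 hn
        refine hc_closure (fun p : Finset V × Finset (Sym2 V) => p.1) (fun W : Finset V => (W, LW W \ cl m))
          (Q := fun W => Disc W (cl m)) ?_ ?_ ?_ ?_ ?_ (hD m hKm.1 _ (by omega))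
        · exact fun p hp => ((hP _ p).1 hp).2.1
        · exact fun W hW => (hP _ _).2 (hgd hW)
        · exact fun p p' _ _ h => h.1
        · exact fun W W' _ _ h => ⟨h, hLW h⟩
        · intro p hp
          have h1 := (hP _ p).1 hp
          exact ⟨le_refl _, fun e he => mem_sdiff.2 ⟨h1.1.1 he, disjoint_left.1 h1.2.2 he⟩⟩)
    (fun T c hT _ hc => ch_mono (fun F hF => by
      obtain ⟨⟨p, hp, h1, h2⟩, h3⟩ := hF
      refine ⟨(hKdef F).2 ⟨h1.trans ((hT.1 p hp).1.trans fun e he => ?_), h2⟩, h3⟩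
      unfold LW at he ⊢
      rw [mem_filter] at he ⊢
      exact ⟨Finset.sym2_mono (subset_univ _) he.1, he.2⟩) hc)
    (fun T T' hTT _ _ c hc => ch_mono (fun F hF => by
      obtain ⟨⟨p, hp, h1⟩, h3⟩ := hF
      exact ⟨⟨p, hTT hp, h1⟩, h3⟩) hc)
    (fun T _ _ => ch_empty _)
    (fun T hT hn => by
      obtain ⟨m, hm, h⟩ := ch_max hT hn
      refine ac_sd (K := fun F => ∃ p ∈ T, F ⊆ p.2 ∧ Plane cross F) ?_ ?_ ?_
      · exact fun s t hst ⟨p, hp, h1, h2⟩ => ⟨p, hp, hst.trans h1, plane_sub hst h2⟩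
      · exact ⟨m, hm, empty_subset _, fun e he => absurd he (notMem_empty e)⟩
      · refine ac_congr (K := fun s => s ⊆ m.2 ∧ Plane cross s) (fun s => ?_)
          (acy_hasCut hsymm (hHD m.1) (hT.1 m hm))
        exact ⟨fun h1 => ⟨m, hm, h1⟩, fun ⟨p, hp, h1, h2⟩ => ⟨h1.trans (h p hp).2, h2⟩⟩)
  obtain ⟨x, hx, rfl⟩ := mem_image.1 hSc
  obtain ⟨⟨p, hp, h1, -⟩, ⟨e, he⟩⟩ := hXi.1 x hx
  have h2 := ((hP _ p).1 (hTP.1 p hp)).2.2
  exact disjoint_left.1 h2 (h1 he) (hcl x ((hKdef x).1 (hcK.1 x hx).1).1 he)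

end H70L
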