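import Pool.Agent.Lib.H70L.Fun
import Pool.Agent.Lib.H70L.Cov
import Pool.Agent.Lib.H63T.Glue

/-!
# H70L, file Main: a plane sparse set with `2n - 3` edges, from the chunks C and D
-/

set_option autoImplicit false

set_option linter.unusedSectionVars false

namespace H70L

open Finset H98P H98Z H63F H30F H98M H56V H63T

variable {V : Type*} [Fintype V] [DecidableEq V]

/-- The homology of the disconnected sets of the graph of a family. -/
theorem hc_hyp (h2 : 2 ≤ Fintype.card V)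
    (ack : ∀ (F : Finset (Finset V)), (∀ X ∈ F, 2 ≤ X.card) → ∀ k, k + cost F + 4 ≤ 2 * Fintype.card V →
      H70H.ACk k fun M : Finset V => ∃ W, M ⊆ W ∧ Disc W (HG F))
    (F : Finset (Finset V)) (hF : ∀ X ∈ F, 2 ≤ X.card) (k : ℕ) (hk : k + cost F + 4 ≤ 2 * Fintype.card V) :
    HC (Ch fun W : Finset V => Disc W (HG F)) k := by
  obtain ⟨W0, hW0⟩ := exists_disc_hyp F h2 (by omega)
  refine hc_disc (hc_congr (fun M => ?_) (hc_of_ack (ack F hF k hk)))
  constructor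
  · exact fun h => Or.inr h
  · rintro (rfl | h)
    · exact ⟨W0, empty_subset _, hW0⟩
    · exact h

/-- THE PLANE SPARSE SET, from chunk C (`ack`) and chunk D (`hcl`). -/
theorem plane_sparse {cross : Sym2 V → Sym2 V → Prop} (hsymm : ∀ e f, cross e f → cross f e)
    (hHD : ∀ W, HD cross W) (h2 : 2 ≤ Fintype.card V)
    (ack : ∀ (F : Finset (Finset V)), (∀ X ∈ F, 2 ≤ X.card) → ∀ k, k + cost F + 4 ≤ 2 * Fintype.card V →
      H70H.ACk k fun M : Finset V => ∃ W, M ⊆ W ∧ Disc W (HG F))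
    (hcl : ∃ (cl : Finset (Sym2 V) → Finset (Finset V)) (r : Finset (Sym2 V) → ℕ),
      (∀ G ⊆ LW univ, (∀ X ∈ cl G, 2 ≤ X.card) ∧ G ⊆ HG (cl G) ∧ cost (cl G) = r G ∧
        ∃ H ⊆ G, Sparse H ∧ H.card = r G) ∧
      (∀ G G', G ⊆ G' → G' ⊆ LW univ → HG (cl G) ⊆ HG (cl G') ∧ (HG (cl G) = HG (cl G') ∨ r G < r G'))) :
    ∃ H : Finset (Sym2 V), H ⊆ LW univ ∧ Plane cross H ∧ Sparse H ∧ H.card + 3 = 2 * Fintype.card V := by
  obtain ⟨cl, r, h1, h3⟩ := hcl
  have hV : ∃ x y : V, x ≠ y := by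
    obtain ⟨x, y, h⟩ := Fintype.exists_pair_of_one_lt_card (α := V) (by omega)
    exact ⟨x, y, h⟩
  obtain ⟨G, hGL, hGp, hcard⟩ := functor_closure hsymm hHD hV (fun G => HG (cl G)) r
    (fun G hG => (h1 G hG).2.1) h3
    (fun G hG k hk => hc_hyp h2 ack (cl G) (h1 G hG).1 k (by rw [(h1 G hG).2.2.1]; exact hk))
  obtain ⟨-, -, -, H, hHG, hH, hHc⟩ := h1 G hGL
  refine ⟨H, hHG.trans hGL, plane_sub hHG hGp, hH, ?_⟩
  have h4 := hH univ (by rwa [card_univ])
  have h5 : H ∩ (univ : Finset V).sym2 = H := inter_eq_left.2 fun e _ => by simp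
  rw [h5, card_univ] at h4
  omega

end H70L
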