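import Pool.Agent.Lib.H56V.P2

/-!
# H70L, file TrMap: the trace argument with a map `f` of the vertices of the first complex
-/

set_option autoImplicit false

namespace H70L

open Finset H98P H63F H56V

variable {E C F : Type*} [Fintype E] [DecidableEq E] [Fintype C] [DecidableEq C] [Fintype F] [DecidableEq F]

/-- A chain map on the image, pulled back along `f`. -/
theorem push (f : E → F) (s : Finset E) (θ : Finset F → Finset C → ZMod 2)
    (θ2 : ∀ r, bd (θ (s.image f)) r = ∑ a ∈ s.image f, θ ((s.image f).erase a) r) (r : Finset C) :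
    bd (fun T => if (s.image f).card = s.card then θ (s.image f) T else 0) r =
      ∑ a ∈ s, if ((s.erase a).image f).card = (s.erase a).card then θ ((s.erase a).image f) r else 0 := by
  classical
  by_cases h : (s.image f).card = s.card
  · have hinj : Set.InjOn f s := card_image_iff.1 h
    have e1 : (fun T => if (s.image f).card = s.card then θ (s.image f) T else 0) = θ (s.image f) := by
      funext T
      rw [if_pos h]
    rw [e1, θ2 r, sum_image hinj]
    refine sum_congr rfl fun a ha => ?_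
    have e2 : (s.erase a).image f = (s.image f).erase (f a) := by
      ext y
      simp only [mem_image, mem_erase]
      constructor
      · rintro ⟨x, ⟨hx1, hx2⟩, rfl⟩
        exact ⟨fun h3 => hx1 (hinj (mem_coe.2 hx2) (mem_coe.2 ha) h3), x, hx2, rfl⟩
      · rintro ⟨h1, x, h2, rfl⟩
        exact ⟨x, ⟨fun h3 => h1 (by rw [h3]), h2⟩, rfl⟩
    have e3 : ((s.erase a).image f).card = (s.erase a).card :=
      card_image_iff.2 (hinj.mono (by
        intro x hx
        exact mem_coe.2 (mem_of_mem_erase (mem_coe.1 hx))))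
    rw [if_pos e3, e2]
  · have e1 : (fun T => if (s.image f).card = s.card then θ (s.image f) T else 0) = fun _ => 0 := by
      funext T
      rw [if_neg h]
    have e0 : bd (fun _ : Finset C => (0 : ZMod 2)) r = 0 := by
      simp [bd]
    rw [e1, e0]
    have hni : ¬ Set.InjOn f s := fun h3 => h (card_image_iff.2 h3)
    simp only [Set.InjOn, not_forall] at hni
    obtain ⟨a, ha, a', ha', hf, hne⟩ := hni
    have ha : a ∈ s := mem_coe.1 ha
    have ha' : a' ∈ s := mem_coe.1 ha'
    have im : ∀ x y, x ∈ s → y ∈ s → x ≠ y → f x = f y → (s.erase x).image f = s.image f := by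
      intro x y hx hy hxy hf
      ext z
      simp only [mem_image, mem_erase]
      constructor
      · rintro ⟨w, ⟨_, h2⟩, rfl⟩
        exact ⟨w, h2, rfl⟩
      · rintro ⟨w, h2, rfl⟩
        by_cases h3 : w = x
        · exact ⟨y, ⟨Ne.symm hxy, hy⟩, by rw [h3, hf]⟩
        · exact ⟨w, ⟨h3, h2⟩, rfl⟩
    have i1 := im a a' ha ha' hne hf
    have i2 := im a' a ha' ha (Ne.symm hne) hf.symm
    symm
    rw [← add_sum_erase s _ ha, ← add_sum_erase (s.erase a) _ (mem_erase.2 ⟨Ne.symm hne, ha'⟩)]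
    have e4 : ∑ x ∈ (s.erase a).erase a',
        (if ((s.erase x).image f).card = (s.erase x).card then θ ((s.erase x).image f) r else 0) = 0 := by
      refine sum_eq_zero fun x hx => ?_
      rw [if_neg]
      intro h3
      rw [mem_erase, mem_erase] at hx
      have h4 : Set.InjOn f (s.erase x) := card_image_iff.1 h3
      exact hne (h4 (mem_coe.2 (mem_erase.2 ⟨Ne.symm hx.2.1, ha⟩)) (mem_coe.2 (mem_erase.2 ⟨Ne.symm hx.1, ha'⟩)) hf)
    rw [e4, add_zero, i1, i2, card_erase_of_mem ha, card_erase_of_mem ha']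
    exact CharTwo.add_self_eq_zero _

/-- The trace argument for two carriers, the first one on the image under `f`. -/
theorem trace_map [Nonempty E] (f : E → F) (K : Finset E → Prop) (L : Finset C → Prop)
    (hK : Dn K) (hL : Dn L) (hK0 : K ∅) (hAK : AC K) (Om : Finset F → Finset C → Prop) (Xi : Finset C → Finset E → Prop)
    (hOL : ∀ d T, (∃ c, K c ∧ c.image f = d) → d.Nonempty → Om d T → L T)
    (hOm : ∀ d d', d ⊆ d' → (∃ c, K c ∧ c.image f = d') → d.Nonempty → ∀ T, Om d T → Om d' T)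
    (hO0 : ∀ d, (∃ c, K c ∧ c.image f = d) → d.Nonempty → Om d ∅)
    (hO : ∀ d, (∃ c, K c ∧ c.image f = d) → d.Nonempty → HC (Om d) (d.card - 1))
    (hXK : ∀ T G, L T → T.Nonempty → Xi T G → K G)
    (hXm : ∀ T T', T ⊆ T' → L T' → T.Nonempty → ∀ G, Xi T G → Xi T' G)
    (hX0 : ∀ T, L T → T.Nonempty → Xi T ∅)
    (hX : ∀ T, L T → T.Nonempty → AC (Xi T)) :
    ∃ (G : Finset E) (T : Finset C), G.Nonempty ∧ K G ∧ T.Nonempty ∧ Om (G.image f) T ∧ Xi T G := by
  obtain ⟨ρ, ρ0, ρ1, ρ2⟩ := carriers (A := E) (B := E) (fun _ => True) (fun _ _ _ _ => trivial)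
    (fun s r => K r ∧ (K s → r ⊆ s))
    (fun s t hst _ _ r hr => ⟨hr.1, fun ht => (hr.2 (hK s t hst ht)).trans hst⟩)
    (fun s _ _ => ⟨hK0, fun _ => Finset.empty_subset s⟩)
    (fun s _ hs => by
      by_cases h : K s
      · have e : (fun r : Finset E => K r ∧ (K s → r ⊆ s)) = fun r => r ⊆ s := by
          funext r
          exact propext ⟨fun hr => hr.2 h, fun hr => ⟨hK r s hr h, fun _ => hr⟩⟩
        rw [e]
        exact ac_simplex hs
      · have e : (fun r : Finset E => K r ∧ (K s → r ⊆ s)) = K := by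
          funext r
          exact propext ⟨fun hr => hr.1, fun hr => ⟨hr, fun hs' => absurd hs' h⟩⟩
        rw [e]
        exact hAK)
  have hDd : Dn fun d : Finset F => ∃ c, K c ∧ c.image f = d := by
    rintro s t hst ⟨c, hc, rfl⟩
    refine ⟨c.filter fun x => f x ∈ s, hK _ _ (filter_subset _ _) hc, ?_⟩
    ext y
    simp only [mem_image, mem_filter]
    constructor
    · rintro ⟨x, ⟨_, h2⟩, rfl⟩
      exact h2
    · intro hy
      obtain ⟨x, hx, rfl⟩ := mem_image.1 (hst hy)
      exact ⟨x, ⟨hx, hy⟩, rfl⟩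
  obtain ⟨η, η0, η1, η2⟩ := carriersHC (A := F) (B := C) (fun d => ∃ c, K c ∧ c.image f = d) hDd Om hOm hO0 hO
  obtain ⟨θ, hθ⟩ : ∃ θ : Finset E → Finset C → ZMod 2, ∀ s T, θ s T =
      if (s.image f).card = s.card then η (s.image f) T else 0 := ⟨_, fun _ _ => rfl⟩
  have θ0 : ∀ r, θ ∅ r = if r = ∅ then 1 else 0 := by
    intro r
    have h : ((∅ : Finset E).image f).card = (∅ : Finset E).card := by rw [image_empty, card_empty, card_empty]
    rw [hθ, if_pos h, image_empty, η0]
  have θ1 : ∀ s, K s → s.Nonempty → ∀ r, θ s r ≠ 0 → Om (s.image f) r ∧ r.card = s.card := by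
    intro s hs hn r hr
    rw [hθ] at hr
    by_cases h : (s.image f).card = s.card
    · rw [if_pos h] at hr
      obtain ⟨h1, h2⟩ := η1 (s.image f) ⟨s, hs, rfl⟩ (hn.image f) r hr
      exact ⟨h1, h2.trans h⟩
    · rw [if_neg h] at hr
      exact absurd rfl hr
  have θ2 : ∀ s, K s → s.Nonempty → ∀ r, bd (θ s) r = ∑ a ∈ s, θ (s.erase a) r := by
    intro s hs hn r
    have e1 : θ s = fun T => if (s.image f).card = s.card then η (s.image f) T else 0 := by
      funext T
      exact hθ s T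
    rw [e1, push f s η (η2 (s.image f) ⟨s, hs, rfl⟩ (hn.image f)) r]
    exact sum_congr rfl fun a _ => (hθ _ _).symm
  obtain ⟨ψ, ψ0, ψ1, ψ2⟩ := carriers (A := C) (B := E) L hL Xi hXm hX0 hX
  have hne : ∀ s : Finset E, K s → s.Nonempty → ∀ T : Finset C, θ s T ≠ 0 → L T ∧ T.Nonempty := by
    intro s hKs hs T hT
    obtain ⟨h1, h2⟩ := θ1 s hKs hs T hT
    exact ⟨hOL _ T ⟨s, hKs, rfl⟩ (hs.image f) h1, Finset.card_pos.mp (by rw [h2]; exact Finset.card_pos.mpr hs)⟩
  have hneR : ∀ s : Finset E, s.Nonempty → ∀ R : Finset E, ρ s R ≠ 0 → K R ∧ R.Nonempty := by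
    intro s hs R hR
    obtain ⟨h1, h2⟩ := ρ1 s trivial hs R hR
    exact ⟨h1.1, Finset.card_pos.mp (by rw [h2]; exact Finset.card_pos.mpr hs)⟩
  -- the composite of the second and the third chain map
  have hg0 : ∀ r : Finset E, ∑ T, θ ∅ T * ψ T r = if r = ∅ then 1 else 0 := by
    intro r
    rw [Finset.sum_eq_single ∅]
    · rw [θ0, if_pos rfl, one_mul, ψ0]
    · intro T _ hT
      rw [θ0, if_neg hT, zero_mul]
    · intro h
      exact absurd (mem_univ _) h
  have hg : ∀ s : Finset E, K s → s.Nonempty → ∀ r : Finset E,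
      bd (fun H => ∑ T, θ s T * ψ T H) r = ∑ a ∈ s, ∑ T, θ (s.erase a) T * ψ T r := by
    intro s hKs hs r
    have e1 : bd (fun H => ∑ T, θ s T * ψ T H) r = ∑ T, θ s T * bd (ψ T) r := by
      rw [bd_sum]
      refine Finset.sum_congr rfl fun T _ => ?_
      simp only [bd, Finset.mul_sum]
    have e2 : ∑ T, θ s T * bd (ψ T) r = ∑ T, θ s T * ∑ a ∈ T, ψ (T.erase a) r := by
      refine Finset.sum_congr rfl fun T _ => ?_
      by_cases hT : θ s T = 0
      · rw [hT, zero_mul, zero_mul]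
      · obtain ⟨h1, h2⟩ := hne s hKs hs T hT
        rw [ψ2 T h1 h2 r]
    have e3 := pairing (fun T => ψ T r) (θ s)
    rw [e1, e2, ← e3]
    have e4 : ∀ T : Finset C, ψ T r * bd (θ s) T = ∑ a ∈ s, θ (s.erase a) T * ψ T r := by
      intro T
      rw [θ2 s hKs hs T, Finset.mul_sum]
      exact Finset.sum_congr rfl fun a _ => mul_comm _ _
    rw [Finset.sum_congr rfl fun T _ => e4 T, Finset.sum_comm]
  obtain ⟨s, hs, hss⟩ := exists_diag (E := E) (fun G H => ∑ R, ρ G R * ∑ T, θ R T * ψ T H) (by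
      intro r
      rw [Finset.sum_eq_single ∅]
      · rw [ρ0, if_pos rfl, one_mul, hg0]
      · intro R _ hR
        rw [ρ0, if_neg hR, zero_mul]
      · intro h
        exact absurd (mem_univ _) h) (by
      intro s hs r
      have e1 : bd (fun H => ∑ R, ρ s R * ∑ T, θ R T * ψ T H) r =
          ∑ R, ρ s R * bd (fun H => ∑ T, θ R T * ψ T H) r := by
        rw [bd_sum]
        refine Finset.sum_congr rfl fun R _ => ?_
        simp only [bd, Finset.mul_sum]
      have e2 : ∑ R, ρ s R * bd (fun H => ∑ T, θ R T * ψ T H) r =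
          ∑ R, ρ s R * ∑ a ∈ R, ∑ T, θ (R.erase a) T * ψ T r := by
        refine Finset.sum_congr rfl fun R _ => ?_
        by_cases hR : ρ s R = 0
        · rw [hR, zero_mul, zero_mul]
        · obtain ⟨h1, h2⟩ := hneR s hs R hR
          rw [hg R h1 h2 r]
      have e3 := pairing (fun R => ∑ T, θ R T * ψ T r) (ρ s)
      rw [e1, e2, ← e3]
      have e4 : ∀ R : Finset E, (∑ T, θ R T * ψ T r) * bd (ρ s) R =
          ∑ a ∈ s, ρ (s.erase a) R * ∑ T, θ R T * ψ T r := by
        intro R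
        rw [ρ2 s trivial hs R, Finset.mul_sum]
        exact Finset.sum_congr rfl fun a _ => mul_comm _ _
      rw [Finset.sum_congr rfl fun R _ => e4 R, Finset.sum_comm])
  obtain ⟨R, _, hR⟩ := Finset.exists_ne_zero_of_sum_ne_zero hss
  have hR1 : ρ s R ≠ 0 := left_ne_zero_of_mul hR
  obtain ⟨T, _, hT⟩ := Finset.exists_ne_zero_of_sum_ne_zero (right_ne_zero_of_mul hR)
  have hT1 : θ R T ≠ 0 := left_ne_zero_of_mul hT
  have hT2 : ψ T s ≠ 0 := right_ne_zero_of_mul hT
  obtain ⟨hKR, hRn⟩ := hneR s hs R hR1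
  obtain ⟨hLT, hTn⟩ := hne R hKR hRn T hT1
  obtain ⟨⟨_, hRs⟩, hcard⟩ := ρ1 s trivial hs R hR1
  have hOm1 := (θ1 R hKR hRn T hT1).1
  have hXi1 := (ψ1 T hLT hTn s hT2).1
  have hKs := hXK T s hLT hTn hXi1
  have hRs' : R = s := Finset.eq_of_subset_of_card_le (hRs hKs) hcard.ge
  rw [hRs'] at hOm1
  exact ⟨s, T, hs, hKs, hTn, hOm1, hXi1⟩


end H70L
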